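import Pool.Agent.R24.HPath

/-!
# MP_593b6a_co : non-Hamiltonian graphs with Hamiltonian `k`-multiset graphs

`G` is the complete graph on `n - 2` vertices together with a triangle `z, p, q` glued at a vertex
`z` of the complete graph.  The vertex `z` is a cut vertex, so `G` is not Hamiltonian.  For every
`k ≥ 3` the `k`-multiset graph of `G` is Hamiltonian: it is divided into fibres according to the
multiplicities of `p` and `q`, and a Hamiltonian cycle runs through the fibres in a snake.
-/

set_option autoImplicit false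
set_option linter.unusedSectionVars false

namespace Pool.Agent.Results.MP_593b6a_co.CutVertex

open Pool.Agent.R24 Multiset

/-- The `k`-multiset graph of `G`: the vertices are the multisets of `k` elements of `V`, and `A`, `B`
are adjacent when `B` arises from `A` by removing one copy of a vertex `u` and adding one copy of a
neighbour `v` of `u`. -/
def multisetGraph {V : Type*} (G : SimpleGraph V) (k : ℕ) : SimpleGraph (Sym V k) where
  Adj A B := ∃ (C : Multiset V) (u v : V), G.Adj u v ∧ (A : Multiset V) = u ::ₘ C ∧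
    (B : Multiset V) = v ::ₘ C
  symm := ⟨by
    rintro A B ⟨C, u, v, h, hA, hB⟩
    exact ⟨C, v, u, h.symm, hB, hA⟩⟩
  loopless := ⟨by
    rintro A ⟨C, u, v, h, hA, hB⟩
    rw [hA] at hB
    exact h.ne ((Multiset.cons_inj_left C).mp hB)⟩

section general

variable {V : Type*} [DecidableEq V] {G : SimpleGraph V}

/-- adjacency of multisets -/
def madj (G : SimpleGraph V) (A B : Multiset V) : Prop :=
  ∃ (C : Multiset V) (u v : V), G.Adj u v ∧ A = u ::ₘ C ∧ B = v ::ₘ C

theorem madj_symm (A B : Multiset V) (h : madj G A B) : madj G B A := by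
  obtain ⟨C, u, v, h, hA, hB⟩ := h
  exact ⟨C, v, u, h.symm, hB, hA⟩

theorem madj_add (D A B : Multiset V) (h : madj G A B) : madj G (A + D) (B + D) := by
  obtain ⟨C, u, v, h, hA, hB⟩ := h
  exact ⟨C + D, u, v, h, by rw [hA, cons_add], by rw [hB, cons_add]⟩

theorem madj_mk (C : Multiset V) {u v : V} (h : G.Adj u v) : madj G (C + {u}) (C + {v}) :=
  ⟨C, u, v, h, by rw [add_comm, singleton_add], by rw [add_comm, singleton_add]⟩

/-- multisets of `r` elements of `K` -/
def T (K : Finset V) (r : ℕ) : Set (Multiset V) := {A | card A = r ∧ ∀ a ∈ A, a ∈ K}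

theorem T_zero (K : Finset V) : T K 0 = {0} := by
  ext A
  simp only [T, Set.mem_ofPred_eq, Set.mem_singleton_iff, card_eq_zero]
  constructor
  · rintro ⟨h, _⟩; exact h
  · rintro rfl; simp

theorem T_succ (K : Finset V) (r : ℕ) {b : V} (hb : b ∈ K) :
    T K (r + 1) = T (K.erase b) (r + 1) ∪ (fun A => A + {b}) '' T K r := by
  ext A
  simp only [T, Set.mem_ofPred_eq, Set.mem_union, Set.mem_image]
  constructor
  · rintro ⟨h1, h2⟩
    by_cases hbA : b ∈ A
    · right
      refine ⟨A.erase b, ⟨?_, fun a ha => h2 a (mem_of_mem_erase ha)⟩, ?_⟩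
      · rw [card_erase_of_mem hbA, h1]; rfl
      · rw [add_comm, singleton_add, cons_erase hbA]
    · left
      refine ⟨h1, fun a ha => Finset.mem_erase.mpr ⟨?_, h2 a ha⟩⟩
      rintro rfl; exact hbA ha
  · rintro (⟨h1, h2⟩ | ⟨B, ⟨h1, h2⟩, rfl⟩)
    · exact ⟨h1, fun a ha => (Finset.mem_erase.mp (h2 a ha)).2⟩
    · refine ⟨by rw [card_add, h1, card_singleton], ?_⟩
      intro a ha
      rw [mem_add, mem_singleton] at ha
      rcases ha with ha | rfl
      · exact h2 a ha
      · exact hb

theorem T_disj (K : Finset V) (r s : ℕ) (b : V) :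
    Disjoint (T (K.erase b) s) ((fun A => A + {b}) '' T K r) := by
  rw [Set.disjoint_left]
  rintro A ⟨_, h2⟩ ⟨B, _, rfl⟩
  have := h2 b (by simp)
  simp at this

theorem add_inj (D : Multiset V) : Function.Injective (fun A : Multiset V => A + D) :=
  fun _ _ h => add_right_cancel h

theorem HP_add {S : Set (Multiset V)} {x y : Multiset V} (D : Multiset V)
    (h : HP (madj G) S x y) : HP (madj G) ((fun A => A + D) '' S) (x + D) (y + D) :=
  h.image (fun A => A + D) (add_inj D) (fun a b h => madj_add D a b h)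

theorem rep_succ (r : ℕ) (a : V) : replicate r a + {a} = replicate (r + 1) a := by
  rw [replicate_succ, add_comm, singleton_add]

/-- Hamiltonian paths between the corners `a^r` and `b^r` -/
theorem corner (n : ℕ) : ∀ (K : Finset V), K.card = n →
    (∀ u ∈ K, ∀ v ∈ K, u ≠ v → G.Adj u v) → ∀ (r : ℕ) (a b : V), a ∈ K → b ∈ K → a ≠ b →
    HP (madj G) (T K r) (replicate r a) (replicate r b) := by
  induction n with
  | zero =>
    intro K hK _ r a b ha
    rw [Finset.card_eq_zero] at hK
    subst hK
    simp at ha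
  | succ n ihn =>
    intro K hK hcl r
    induction r with
    | zero =>
      intro a b _ _ _
      rw [T_zero]
      simpa using HP.single (R := madj G) (0 : Multiset V)
    | succ r ihr =>
      intro a b ha hb hab
      by_cases h : ∃ d ∈ K, d ≠ a ∧ d ≠ b
      · obtain ⟨d, hd, hda, hdb⟩ := h
        have h1 := ihn (K.erase b) (by rw [Finset.card_erase_of_mem hb, hK]; rfl)
          (fun u hu v hv => hcl u (Finset.mem_erase.mp hu).2 v (Finset.mem_erase.mp hv).2)
          (r + 1) a d (Finset.mem_erase.mpr ⟨hab, ha⟩) (Finset.mem_erase.mpr ⟨hdb, hd⟩) hda.symm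
        have h2 := HP_add {b} (ihr d b hd hb hdb)
        rw [T_succ K r hb]
        rw [rep_succ r b] at h2
        refine h1.trans h2 (T_disj K r (r + 1) b) ?_
        rw [← rep_succ r d]
        exact madj_mk _ (hcl d hd b hb hdb)
      · push Not at h
        have h2 := HP_add {b} (ihr a b ha hb hab)
        rw [rep_succ r b] at h2
        have h1 : HP (madj G) (T (K.erase b) (r + 1)) (replicate (r + 1) a) (replicate (r + 1) a) := by
          refine (HP.single (R := madj G) (replicate (r + 1) a)).congr ?_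
          ext A
          simp only [Set.mem_singleton_iff, T, Set.mem_ofPred_eq]
          constructor
          · rintro rfl
            refine ⟨card_replicate _ _, ?_⟩
            intro x hx
            rw [eq_of_mem_replicate hx]
            exact Finset.mem_erase.mpr ⟨hab, ha⟩
          · rintro ⟨hc, hA⟩
            rw [← hc]
            refine eq_replicate_card.mpr ?_
            intro x hx
            have h3 := Finset.mem_erase.mp (hA x hx)
            by_contra hxa
            exact h3.1 (h x h3.2 hxa)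
        rw [T_succ K r hb]
        refine h1.trans h2 (T_disj K r (r + 1) b) ?_
        rw [← rep_succ r a]
        exact madj_mk _ (hcl a ha b hb hab)

end general

section main

variable {V : Type*} [DecidableEq V] {G : SimpleGraph V}

/-- the data of the construction -/
structure Setup (G : SimpleGraph V) (K : Finset V) (z c b p q : V) : Prop where
  clique : ∀ u ∈ K, ∀ v ∈ K, u ≠ v → G.Adj u v
  hz : z ∈ K
  hc : c ∈ K
  hb : b ∈ K
  hzc : z ≠ c
  hzb : z ≠ b
  hcb : c ≠ b
  hp : p ∉ K
  hq : q ∉ K
  hpq : p ≠ q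
  apq : G.Adj p q
  azp : G.Adj z p
  azq : G.Adj z q
  cover : ∀ v, v ∈ K ∨ v = p ∨ v = q

/-- the two special vertices `z^(s+1)` and `z^s c` of the fibres -/
def e (z c : V) (s : ℕ) (t : Bool) : Multiset V :=
  if t then replicate s z + {c} else replicate (s + 1) z

theorem e_succ (z c : V) (s : ℕ) (t : Bool) : e z c (s + 1) t = e z c s t + {z} := by
  cases t
  · simp only [e, Bool.false_eq_true, if_false]
    rw [rep_succ]
  · simp only [e, if_true]
    rw [← rep_succ s z]
    ac_rfl

variable {K : Finset V} {z c b p q : V} (S : Setup G K z c b p q)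

include S

theorem trav (s : ℕ) (t : Bool) : HP (madj G) (T K (s + 1)) (e z c s t) (e z c s (!t)) := by
  have key : HP (madj G) (T K (s + 1)) (e z c s false) (e z c s true) := by
    simp only [e, Bool.false_eq_true, if_false, if_true]
    have h1 := corner (G := G) _ (K.erase c) rfl
      (fun u hu v hv => S.clique u (Finset.mem_erase.mp hu).2 v (Finset.mem_erase.mp hv).2)
      (s + 1) z b (Finset.mem_erase.mpr ⟨S.hzc, S.hz⟩) (Finset.mem_erase.mpr ⟨S.hcb.symm, S.hb⟩) S.hzb
    have h2 := HP_add {c} (corner (G := G) _ K rfl S.clique s b z S.hb S.hz S.hzb.symm)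
    rw [T_succ K s S.hc]
    refine h1.trans h2 (T_disj K s (s + 1) c) ?_
    rw [← rep_succ s b]
    exact madj_mk _ (S.clique b S.hb c S.hc S.hcb.symm)
  cases t
  · exact key
  · exact key.symm madj_symm

omit S in
/-- the part of the fibres outside the clique -/
def D (p q : V) (i j : ℕ) : Multiset V := replicate i p + replicate j q

omit S in
theorem D_p (p q : V) (i j : ℕ) : D p q i j + {p} = D p q (i + 1) j := by
  unfold D
  rw [← rep_succ i p]; ac_rfl

omit S in
theorem D_q (p q : V) (i j : ℕ) : D p q i j + {q} = D p q i (j + 1) := by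
  unfold D
  rw [← rep_succ j q]; ac_rfl

omit S in
/-- the multisets of `k` elements whose multiplicities of `p` and `q` satisfy `P` -/
def SS (k : ℕ) (p q : V) (P : ℕ → ℕ → Prop) : Set (Multiset V) :=
  {A | card A = k ∧ P (count p A) (count q A)}

omit S in
theorem SS_congr {k : ℕ} {P Q : ℕ → ℕ → Prop} (hpq : p ≠ q)
    (h : ∀ i j, i + j ≤ k → (P i j ↔ Q i j)) : SS k p q P = SS k p q Q := by
  ext A
  simp only [SS, Set.mem_ofPred_eq]
  refine and_congr_right fun hA => h _ _ ?_
  rw [← hA]
  have h1 : replicate (count p A) p + replicate (count q A) q ≤ A := by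
    rw [le_iff_count]
    intro x
    rw [count_add, count_replicate, count_replicate]
    by_cases hx : p = x
    · subst hx
      simp [hpq.symm]
    · by_cases hy : q = x
      · subst hy
        simp [hpq]
      · simp [hx, hy]
  have h2 := card_le_card h1
  simpa using h2

omit S in
theorem SS_union {k : ℕ} {P Q : ℕ → ℕ → Prop} :
    SS k p q P ∪ SS k p q Q = SS k p q (fun i j => P i j ∨ Q i j) := by
  ext A
  simp only [SS, Set.mem_union, Set.mem_ofPred_eq]
  tauto

omit S in
theorem SS_disj {k : ℕ} {P Q : ℕ → ℕ → Prop} (h : ∀ i j, P i j → Q i j → False) :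
    Disjoint (SS k p q P) (SS k p q Q) := by
  rw [Set.disjoint_left]
  rintro A ⟨_, h1⟩ ⟨_, h2⟩
  exact h _ _ h1 h2

omit S in
/-- joining two paths on sets given by multiplicities -/
theorem join {k : ℕ} {P Q P' : ℕ → ℕ → Prop} {x y y' w : Multiset V} (hpq : p ≠ q)
    (h1 : HP (madj G) (SS k p q P) x y) (h2 : HP (madj G) (SS k p q Q) y' w)
    (hR : madj G y y') (hd : ∀ i j, P i j → Q i j → False)
    (hP : ∀ i j, i + j ≤ k → (P' i j ↔ (P i j ∨ Q i j))) : HP (madj G) (SS k p q P') x w := by
  refine (h1.trans h2 (SS_disj hd) hR).congr ?_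
  rw [SS_union]
  exact (SS_congr hpq hP).symm

/-- a fibre -/
theorem fibre_eq (r i j : ℕ) :
    (fun A => A + D p q i j) '' T K r = SS (r + i + j) p q (fun i' j' => i' = i ∧ j' = j) := by
  ext A
  simp only [Set.mem_image, T, SS, Set.mem_ofPred_eq]
  constructor
  · rintro ⟨B, ⟨h1, h2⟩, rfl⟩
    have hp0 : count p B = 0 := count_eq_zero_of_notMem fun h => S.hp (h2 p h)
    have hq0 : count q B = 0 := count_eq_zero_of_notMem fun h => S.hq (h2 q h)
    refine ⟨?_, ?_, ?_⟩
    · simp only [D, card_add, card_replicate, h1]; ring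
    · simp [D, count_add, count_replicate, hp0, S.hpq.symm]
    · simp [D, count_add, count_replicate, hq0, S.hpq]
  · rintro ⟨h1, h2, h3⟩
    have hle : D p q i j ≤ A := by
      rw [le_iff_count]
      intro x
      unfold D
      rw [count_add, count_replicate, count_replicate]
      by_cases hx : p = x
      · subst hx
        simp [S.hpq.symm, h2]
      · by_cases hy : q = x
        · subst hy
          simp [S.hpq, h3]
        · simp [hx, hy]
    refine ⟨A - D p q i j, ⟨?_, ?_⟩, Multiset.sub_add_cancel hle⟩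
    · rw [card_sub hle, h1]
      simp only [D, card_add, card_replicate]
      omega
    · intro a ha
      have hcount : 0 < count a (A - D p q i j) := count_pos.mpr ha
      rw [count_sub] at hcount
      rcases S.cover a with h | h | h
      · exact h
      · subst h
        simp [D, count_add, count_replicate, S.hpq.symm, h2] at hcount
      · subst h
        simp [D, count_add, count_replicate, S.hpq, h3] at hcount

theorem fib {k : ℕ} (r i j : ℕ) (hk : r + i + j = k) {x y : Multiset V}
    (h : HP (madj G) (T K r) x y) :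
    HP (madj G) (SS k p q (fun i' j' => i' = i ∧ j' = j)) (x + D p q i j) (y + D p q i j) := by
  have := HP_add (D p q i j) h
  rw [fibre_eq S, hk] at this
  exact this

/-- moving one copy of `q` to `p` or back -/
theorem horiz (x : Multiset V) (i j : ℕ) : madj G (x + D p q i (j + 1)) (x + D p q (i + 1) j) := by
  rw [← D_q, ← D_p, ← add_assoc, ← add_assoc]
  exact madj_mk _ S.apq.symm

/-- replacing one copy of `z` by `q` -/
theorem down_q (s : ℕ) (t : Bool) (i j : ℕ) :
    madj G (e z c (s + 1) t + D p q i j) (e z c s t + D p q i (j + 1)) := by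
  rw [e_succ, ← D_q, ← add_assoc, add_right_comm]
  exact madj_mk _ S.azq

/-- replacing one copy of `z` by `p` -/
theorem down_p (s : ℕ) (t : Bool) (i j : ℕ) :
    madj G (e z c (s + 1) t + D p q i j) (e z c s t + D p q (i + 1) j) := by
  rw [e_succ, ← D_p, ← add_assoc, add_right_comm]
  exact madj_mk _ S.azp

/-- the lane without `p` -/
theorem up_lane {k : ℕ} (s : ℕ) (hs : s + 1 ≤ k) : ∃ t,
    HP (madj G) (SS k p q (fun i j => i = 0 ∧ k ≤ j + (s + 1))) (D p q 0 k)
      (e z c s t + D p q 0 (k - (s + 1))) := by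
  induction s with
  | zero =>
    refine ⟨true, ?_⟩
    have h0 := fib S (k := k) 0 0 k (by ring) (x := 0) (y := 0) (by
      rw [T_zero]; exact HP.single 0)
    rw [zero_add] at h0
    have h1 := fib S (k := k) 1 0 (k - 1) (by omega) (trav S 0 false)
    refine join S.hpq h0 h1 ?_ ?_ ?_
    · have : D p q 0 k = D p q 0 (k - 1) + {q} := by
        rw [D_q]; congr 1; omega
      have h2 : e z c 0 false = {z} := by simp [e]
      rw [this, h2, add_comm {z} (D p q 0 (k - 1))]
      exact madj_mk _ S.azq.symm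
    · rintro i j ⟨_, h1⟩ ⟨_, h2⟩; omega
    · intro i j hij; omega
  | succ s ih =>
    obtain ⟨t, ht⟩ := ih (by omega)
    refine ⟨!t, ?_⟩
    have h1 := fib S (k := k) (s + 1 + 1) 0 (k - (s + 1 + 1)) (by omega) (trav S (s + 1) t)
    refine join S.hpq ht h1 ?_ ?_ ?_
    · have := down_q S s t 0 (k - (s + 1 + 1))
      rw [show k - (s + 1 + 1) + 1 = k - (s + 1) by omega] at this
      exact madj_symm _ _ this
    · rintro i j ⟨_, h1⟩ ⟨_, h2⟩; omega
    · intro i j hij; omega

/-- a row traversed to the right -/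
theorem row_right {k : ℕ} (j s : ℕ) (hj : s + 1 + j = k) (t : Bool) (i0 : ℕ) (h1 : 1 ≤ i0)
    (h2 : i0 ≤ j) : ∃ t',
    HP (madj G) (SS k p q (fun i' j' => i' + j' = j ∧ 1 ≤ i' ∧ i' ≤ i0))
      (e z c s t + D p q 1 (j - 1)) (e z c s t' + D p q i0 (j - i0)) := by
  induction i0, h1 using Nat.le_induction with
  | base =>
    refine ⟨!t, ?_⟩
    refine (fib S (k := k) (s + 1) 1 (j - 1) (by omega) (trav S s t)).congr ?_
    refine SS_congr S.hpq ?_
    intro i' j' _; omega
  | succ i0 h1 ih =>
    obtain ⟨t', ht'⟩ := ih (by omega)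
    refine ⟨!t', ?_⟩
    have h3 := fib S (k := k) (s + 1) (i0 + 1) (j - (i0 + 1)) (by omega) (trav S s t')
    refine join S.hpq ht' h3 ?_ ?_ ?_
    · have := horiz S (e z c s t') i0 (j - (i0 + 1))
      rwa [show j - (i0 + 1) + 1 = j - i0 by omega] at this
    · rintro i' j' ⟨_, _, h1⟩ ⟨h2, _⟩; omega
    · intro i' j' _; omega

/-- a row traversed to the left -/
theorem row_left {k : ℕ} (j s : ℕ) (hj : s + 1 + j = k) (t : Bool) (d : ℕ)
    (h2 : d + 1 ≤ j) : ∃ t',
    HP (madj G) (SS k p q (fun i' j' => i' + j' = j ∧ j - d ≤ i'))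
      (e z c s t + D p q j 0) (e z c s t' + D p q (j - d) d) := by
  induction d with
  | zero =>
    refine ⟨!t, ?_⟩
    refine (fib S (k := k) (s + 1) j 0 (by omega) (trav S s t)).congr ?_
    refine SS_congr S.hpq ?_
    intro i' j' _; omega
  | succ d ih =>
    obtain ⟨t', ht'⟩ := ih (by omega)
    refine ⟨!t', ?_⟩
    have h3 := fib S (k := k) (s + 1) (j - (d + 1)) (d + 1) (by omega) (trav S s t')
    refine join S.hpq ht' h3 ?_ ?_ ?_
    · have := horiz S (e z c s t') (j - (d + 1)) d
      rw [show j - (d + 1) + 1 = j - d by omega] at this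
      exact madj_symm _ _ this
    · rintro i' j' ⟨_, h1⟩ ⟨h2, _⟩; omega
    · intro i' j' _; omega

/-- the rows `1, …, j` -/
theorem rows {k : ℕ} (j : ℕ) (h1 : 1 ≤ j) (h2 : j + 1 ≤ k) (σ t : Bool) : ∃ t',
    HP (madj G) (SS k p q (fun i' j' => 1 ≤ i' ∧ i' + j' ≤ j))
      (e z c (k - 2) t + D p q 1 0)
      (e z c (k - j - 1) t' + (if σ then D p q j 0 else D p q 1 (j - 1))) := by
  induction j, h1 using Nat.le_induction generalizing σ with
  | base =>
    refine ⟨!t, ?_⟩
    have h := fib S (k := k) (k - 2 + 1) 1 0 (by omega) (trav S (k - 2) t)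
    have e1 : (if σ then D p q 1 0 else D p q 1 (1 - 1)) = D p q 1 0 := by cases σ <;> rfl
    rw [e1, show k - 1 - 1 = k - 2 by omega]
    refine h.congr (SS_congr S.hpq ?_)
    intro i' j' _; omega
  | succ j h1 ih =>
    obtain ⟨t1, ht1⟩ := ih (by omega) (!σ)
    cases σ
    · -- end on the left, start on the right
      simp only [Bool.not_false, if_true] at ht1
      obtain ⟨t2, ht2⟩ := row_left S (k := k) (j + 1) (k - j - 2) (by omega) t1 j (by omega)
      refine ⟨t2, ?_⟩
      simp only [Bool.false_eq_true, if_false]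
      rw [show j + 1 - j = 1 by omega] at ht2
      rw [show k - (j + 1) - 1 = k - j - 2 by omega, show j + 1 - 1 = j by omega]
      refine join S.hpq ht1 ht2 ?_ ?_ ?_
      · have := down_p S (k - j - 2) t1 j 0
        rwa [show k - j - 2 + 1 = k - j - 1 by omega] at this
      · rintro i' j' ⟨_, h1⟩ ⟨h2, _⟩; omega
      · intro i' j' _; omega
    · simp only [Bool.not_true, Bool.false_eq_true, if_false] at ht1
      obtain ⟨t2, ht2⟩ := row_right S (k := k) (j + 1) (k - j - 2) (by omega) t1 (j + 1) (by omega)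
        (by omega)
      refine ⟨t2, ?_⟩
      simp only [if_true]
      rw [show j + 1 - (j + 1) = 0 by omega, show j + 1 - 1 = j by omega] at ht2
      rw [show k - (j + 1) - 1 = k - j - 2 by omega]
      refine join S.hpq ht1 ht2 ?_ ?_ ?_
      · have := down_q S (k - j - 2) t1 1 (j - 1)
        rwa [show k - j - 2 + 1 = k - j - 1 by omega, show j - 1 + 1 = j by omega] at this
      · rintro i' j' ⟨_, h1⟩ ⟨h2, _⟩; omega
      · intro i' j' _; omega

/-- the row `k - 1` -/
theorem last_row {k : ℕ} (hk : 3 ≤ k) (x : V) (hx : x ∈ K) (i0 : ℕ) (h1 : 2 ≤ i0)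
    (h2 : i0 ≤ k - 1) (y : V) (hy : y ∈ K) :
    HP (madj G) (SS k p q (fun i' j' => i' + j' = k - 1 ∧ 1 ≤ i' ∧ i' ≤ i0))
      ({x} + D p q 1 (k - 2)) ({y} + D p q i0 (k - 1 - i0)) := by
  have one : ∀ u ∈ K, ∀ v ∈ K, u ≠ v → HP (madj G) (T K 1) {u} {v} := by
    intro u hu v hv huv
    have := corner (G := G) _ K rfl S.clique 1 u v hu hv huv
    simpa using this
  have third : ∀ u v : V, ∃ w ∈ K, w ≠ u ∧ w ≠ v := by
    intro u v
    by_cases hz : z ≠ u ∧ z ≠ v
    · exact ⟨z, S.hz, hz⟩
    · by_cases hc : c ≠ u ∧ c ≠ v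
      · exact ⟨c, S.hc, hc⟩
      · refine ⟨b, S.hb, ?_⟩
        have h1 := S.hzc
        have h2 := S.hzb
        have h3 := S.hcb
        constructor
        · rintro rfl
          apply hz
          refine ⟨h2, ?_⟩
          rintro rfl
          exact hc ⟨h3, h1.symm⟩
        · rintro rfl
          apply hz
          refine ⟨?_, h2⟩
          rintro rfl
          exact hc ⟨h1.symm, h3⟩
  induction i0, h1 using Nat.le_induction generalizing y with
  | base =>
    obtain ⟨w, hw, hwx, hwy⟩ := third x y
    have f1 := fib S (k := k) 1 1 (k - 2) (by omega) (one x hx w hw hwx.symm)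
    have f2 := fib S (k := k) 1 2 (k - 3) (by omega) (one w hw y hy hwy)
    rw [show k - 1 - 2 = k - 3 by omega]
    refine join S.hpq f1 f2 ?_ ?_ ?_
    · have := horiz S {w} 1 (k - 3)
      rwa [show k - 3 + 1 = k - 2 by omega] at this
    · rintro i' j' ⟨h1, _⟩ ⟨h2, _⟩; omega
    · intro i' j' _; omega
  | succ i0 h1 ih =>
    obtain ⟨w, hw, hwy, -⟩ := third y y
    have f1 := ih (by omega) w hw
    have f2 := fib S (k := k) 1 (i0 + 1) (k - 1 - (i0 + 1)) (by omega) (one w hw y hy hwy)
    refine join S.hpq f1 f2 ?_ ?_ ?_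
    · have := horiz S {w} i0 (k - 1 - (i0 + 1))
      rwa [show k - 1 - (i0 + 1) + 1 = k - 1 - i0 by omega] at this
    · rintro i' j' ⟨_, _, h1⟩ ⟨h2, _⟩; omega
    · intro i' j' _; omega

/-- the row `k` -/
theorem bottom {k : ℕ} (d : ℕ) (h2 : d + 1 ≤ k) :
    HP (madj G) (SS k p q (fun i' j' => i' + j' = k ∧ k - d ≤ i'))
      (D p q k 0) (D p q (k - d) d) := by
  have pt : ∀ i j, i + j = k → HP (madj G) (SS k p q (fun i' j' => i' = i ∧ j' = j))
      (D p q i j) (D p q i j) := by
    intro i j hij
    have h0 := fib S (k := k) 0 i j (by omega) (x := 0) (y := 0) (by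
      rw [T_zero]; exact HP.single 0)
    rwa [zero_add] at h0
  induction d with
  | zero =>
    refine (pt k 0 (by omega)).congr (SS_congr S.hpq ?_)
    intro i' j' _; omega
  | succ d ih =>
    refine join S.hpq (ih (by omega)) (pt (k - (d + 1)) (d + 1) (by omega)) ?_ ?_ ?_
    · have := horiz S 0 (k - (d + 1)) d
      rw [zero_add, zero_add, show k - (d + 1) + 1 = k - d by omega] at this
      exact madj_symm _ _ this
    · rintro i' j' ⟨_, h1⟩ ⟨h2, _⟩; omega
    · intro i' j' _; omega

/-- the closed list of all multisets of `k` elements -/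
theorem closed {k : ℕ} (hk : 3 ≤ k) : HP (madj G) {A : Multiset V | card A = k} (D p q 0 k)
    (D p q 1 (k - 1)) := by
  obtain ⟨t1, h1⟩ := up_lane S (k := k) (k - 1) (by omega)
  obtain ⟨t2, h2⟩ := rows S (k := k) (k - 2) (by omega) (by omega) false t1
  have h3 : ∃ x ∈ K, e z c 0 t2 = {x} := by
    cases t2
    · exact ⟨z, S.hz, by simp [e]⟩
    · exact ⟨c, S.hc, by simp [e]⟩
  obtain ⟨x, hx, hxe⟩ := h3
  have h4 := last_row S hk x hx (k - 1) (by omega) le_rfl z S.hz
  have h5 := bottom S (k := k) (k - 1) (by omega)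
  rw [show k - (k - 1 + 1) = 0 by omega] at h1
  simp only [Bool.false_eq_true, if_false] at h2
  rw [show k - (k - 2) - 1 = 1 by omega] at h2
  rw [show k - 1 - (k - 1) = 0 by omega] at h4
  rw [show k - (k - 1) = 1 by omega] at h5
  have j1 := join (P' := fun i j => i = 0 ∨ i + j ≤ k - 2) S.hpq h1 h2 (by
      have := down_p S (k - 2) t1 0 0
      rwa [show k - 2 + 1 = k - 1 by omega] at this)
    (by rintro i j ⟨h1, _⟩ ⟨h2, _⟩; omega) (by intro i j _; omega)
  have j2 := join (P' := fun i j => i = 0 ∨ i + j ≤ k - 1) S.hpq j1 h4 (by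
      have := down_q S 0 t2 1 (k - 2 - 1)
      rw [hxe, show k - 2 - 1 + 1 = k - 2 by omega] at this
      exact this)
    (by rintro i j h1 ⟨h2, h3, _⟩; omega) (by intro i j _; omega)
  have j3 := join (P' := fun _ _ => True) S.hpq j2 h5 (by
      have : D p q k 0 = D p q (k - 1) 0 + {p} := by rw [D_p]; congr 1; omega
      rw [this, add_comm {z} (D p q (k - 1) 0)]
      exact madj_mk _ S.azp)
    (by rintro i j h1 ⟨h2, h3⟩; omega) (by intro i j _; simp only [true_iff]; omega)
  refine j3.congr ?_
  ext A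
  simp [SS]

omit [DecidableEq V] S in
theorem lift_list {k : ℕ} (l : List (Multiset V)) (h : ∀ A ∈ l, card A = k) :
    ∃ L : List (Sym V k), L.map (fun A : Sym V k => (A : Multiset V)) = l :=
  ⟨l.attachWith (fun A => card A = k) h, List.attachWith_map_subtype_val h⟩

theorem hamiltonian [Fintype V] {k : ℕ} (hk : 3 ≤ k) : (multisetGraph G k).IsHamiltonian := by
  classical
  obtain ⟨l, hn, hm, hc, hx, hy⟩ := closed S hk
  have hcard : ∀ A ∈ l, card A = k := fun A hA => (hm A).1 hA
  obtain ⟨L, hL⟩ := lift_list l hcard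
  have hmem : ∀ A : Sym V k, A ∈ L := by
    intro A
    have h1 : (A : Multiset V) ∈ L.map (fun A : Sym V k => (A : Multiset V)) := by
      rw [hL]; exact (hm A.1).2 A.2
    obtain ⟨B, hB, hAB⟩ := List.mem_map.mp h1
    rwa [← Sym.coe_injective hAB]
  have hend : ∃ x, L.head? = some x ∧ (x : Multiset V) = D p q 0 k := by
    rw [← hL, List.head?_map] at hx
    cases hh : L.head? with
    | none => rw [hh] at hx; simp at hx
    | some w =>
      rw [hh] at hx
      exact ⟨w, rfl, by simpa using hx⟩
  have hend' : ∃ x, L.getLast? = some x ∧ (x : Multiset V) = D p q 1 (k - 1) := by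
    rw [← hL, List.getLast?_map] at hy
    cases hh : L.getLast? with
    | none => rw [hh] at hy; simp at hy
    | some w =>
      rw [hh] at hy
      exact ⟨w, rfl, by simpa using hy⟩
  obtain ⟨x, hx1, hx2⟩ := hend
  obtain ⟨y, hy1, hy2⟩ := hend'
  intro _
  refine ham_of_list (multisetGraph G k) L ?_ hmem ?_ x y hx1 hy1 ?_ ?_
  · exact List.Nodup.of_map _ (by rw [hL]; exact hn)
  · rw [← hL, List.isChain_map] at hc
    exact hc
  · have h1 := horiz S 0 0 (k - 1)
    rw [zero_add, zero_add, show k - 1 + 1 = k by omega] at h1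
    have h2 := madj_symm _ _ h1
    rw [← hx2, zero_add, ← hy2] at h2
    exact h2
  · have hd : ∀ i, i ≤ k → D p q i (k - i) ∈ l := fun i hi => (hm _).2 (by
      simp only [D, Set.mem_ofPred_eq, card_add, card_replicate]; omega)
    have hinj : Function.Injective (fun i : Fin 3 => D p q (i : ℕ) (k - i)) := by
      intro i j h
      have := congrArg (count p) h
      simp only [D, count_add, count_replicate, S.hpq.symm, if_true, if_false, add_zero] at this
      exact Fin.ext this
    have h1 : (Finset.univ.image (fun i : Fin 3 => D p q (i : ℕ) (k - i))) ⊆ l.toFinset := by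
      intro A hA
      obtain ⟨i, -, rfl⟩ := Finset.mem_image.mp hA
      exact List.mem_toFinset.mpr (hd i (by have := i.2; omega))
    have h2 := Finset.card_le_card h1
    rw [Finset.card_image_of_injective _ hinj, Finset.card_univ, Fintype.card_fin,
      List.toFinset_card_of_nodup hn, ← hL, List.length_map] at h2
    exact h2

end main

/-! ### a graph with a cut vertex is not Hamiltonian -/

theorem path_side {V : Type*} {G : SimpleGraph V} (z : V) (side : V → Bool)
    (h : ∀ u v, G.Adj u v → u ≠ z → v ≠ z → side u = side v) {u w : V} (p : G.Walk u w)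
    (hp : p.IsPath) (hw : w = z) : ∀ x ∈ p.support, x ≠ z → side x = side u := by
  induction p with
  | nil =>
    intro x hx hxz
    simp only [SimpleGraph.Walk.support_nil, List.mem_singleton] at hx
    exact absurd (hx.trans hw) hxz
  | cons hadj p' ih =>
    intro x hx hxz
    rw [SimpleGraph.Walk.cons_isPath_iff] at hp
    rw [SimpleGraph.Walk.support_cons, List.mem_cons] at hx
    rcases hx with rfl | hx
    · rfl
    · rename_i a b c
      have h1 := ih hp.1 hw x hx hxz
      have hb : b ≠ z := by
        rintro rfl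
        subst hw
        have := (SimpleGraph.Walk.isPath_iff_eq_nil.mp hp.1)
        rw [this] at hx
        simp only [SimpleGraph.Walk.support_nil, List.mem_singleton] at hx
        exact hxz hx
      have ha : a ≠ z := by
        rintro rfl
        apply hp.2
        rw [← hw]
        exact p'.end_mem_support
      rw [h1, h a b hadj ha hb]

theorem not_ham_of_cut {V : Type*} [DecidableEq V] (G : SimpleGraph V) (z : V) (side : V → Bool)
    (h : ∀ u v, G.Adj u v → u ≠ z → v ≠ z → side u = side v) (a b : V) (ha : a ≠ z) (hb : b ≠ z)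
    (hab : side a ≠ side b) : ¬ ∃ (u : V) (c : G.Walk u u), c.IsHamiltonianCycle := by
  rintro ⟨u, c, hc⟩
  have hc' := hc.rotate (hc.mem_support z)
  have hp := hc'.isHamiltonian_tail
  have h1 := path_side z side h _ hp.isPath rfl a (hp.mem_support a) ha
  have h2 := path_side z side h _ hp.isPath rfl b (hp.mem_support b) hb
  exact hab (h1.trans h2.symm)

/-- The complete graph on the vertices `0, …, n - 3` of `Fin n` together with the triangle
`0, n - 2, n - 1`. -/
def X (n : ℕ) : SimpleGraph (Fin n) where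
  Adj u v := u ≠ v ∧ ((u.val + 2 < n ∧ v.val + 2 < n) ∨
    ((u.val = 0 ∨ n ≤ u.val + 2) ∧ (v.val = 0 ∨ n ≤ v.val + 2)))
  symm := ⟨by rintro u v ⟨h1, h2⟩; exact ⟨h1.symm, by tauto⟩⟩
  loopless := ⟨by rintro u ⟨h1, _⟩; exact h1 rfl⟩

theorem X_not_ham {n : ℕ} (hn : 5 ≤ n) : ¬ (X n).IsHamiltonian := by
  intro h
  have h1 : Fintype.card (Fin n) ≠ 1 := by rw [Fintype.card_fin]; omega
  refine not_ham_of_cut (X n) ⟨0, by omega⟩ (fun u => decide (u.val + 2 < n)) ?_ ⟨1, by omega⟩
    ⟨n - 1, by omega⟩ ?_ ?_ ?_ (h h1)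
  · rintro u v ⟨h1, h2⟩ h3 h4
    have h3' : u.val ≠ 0 := fun h => h3 (Fin.ext h)
    have h4' : v.val ≠ 0 := fun h => h4 (Fin.ext h)
    rw [decide_eq_decide]
    omega
  · intro h; have := congrArg Fin.val h; simp at this
  · intro h; have := congrArg Fin.val h; simp at this; omega
  · simp only [ne_eq, decide_eq_decide]
    omega

theorem X_setup {n : ℕ} (hn : 5 ≤ n) : Setup (X n) (Finset.univ.filter fun v => v.val + 2 < n)
    ⟨0, by omega⟩ ⟨1, by omega⟩ ⟨2, by omega⟩ ⟨n - 2, by omega⟩ ⟨n - 1, by omega⟩ where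
  clique := by
    intro u hu v hv huv
    simp only [Finset.mem_filter, Finset.mem_univ, true_and] at hu hv
    exact ⟨huv, Or.inl ⟨hu, hv⟩⟩
  hz := by simp; omega
  hc := by simp; omega
  hb := by simp; omega
  hzc := by simp
  hzb := by simp
  hcb := by simp
  hp := by simp; omega
  hq := by simp; omega
  hpq := by simp; omega
  apq := ⟨by simp; omega, Or.inr ⟨Or.inr (by simp; omega), Or.inr (by simp; omega)⟩⟩
  azp := ⟨by simp; omega, Or.inr ⟨Or.inl rfl, Or.inr (by simp; omega)⟩⟩
  azq := ⟨by simp; omega, Or.inr ⟨Or.inl rfl, Or.inr (by simp; omega)⟩⟩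
  cover := by
    intro v
    simp only [Finset.mem_filter, Finset.mem_univ, true_and]
    by_cases h : v.val + 2 < n
    · exact Or.inl h
    · right
      have := v.2
      by_cases h2 : v.val = n - 2
      · exact Or.inl (Fin.ext h2)
      · exact Or.inr (Fin.ext (by simp; omega))

/-- For every `k ≥ 3` and every `n ≥ 5` there is a graph on `n` vertices which is not Hamiltonian
while its `k`-multiset graph is Hamiltonian. -/
theorem result : ∀ k : ℕ, 3 ≤ k → ∀ n : ℕ, 5 ≤ n → ∃ G : SimpleGraph (Fin n),
    ¬ G.IsHamiltonian ∧ (multisetGraph G k).IsHamiltonian :=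
  fun _ hk n hn => ⟨X n, X_not_ham hn, hamiltonian (X_setup hn) hk⟩

end Pool.Agent.Results.MP_593b6a_co.CutVertex
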